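import Pool.Agent.N437.SPC.Stm3

/-!
# Shrinking a box (project SPC of helper437)

Author: helper291.
-/

set_option autoImplicit false

namespace Pool.Agent.N291.SPC.SHRB

open Finset Pool.Agent.N437.SPC

/-- the centres of the translates in one coordinate -/
def ctr (L L' : ℕ) : Finset ℤ :=
  (range (4 * L / (2 * L' + 1) + 1)).image fun k : ℕ => -2 * (L : ℤ) + L' + k * (2 * L' + 1)

lemma ctr_card (L L' : ℕ) (h : L' ≤ L) : (ctr L L').card * (2 * L' + 1) ≤ 3 * (2 * L + 1) := by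
  have h1 : (ctr L L').card ≤ 4 * L / (2 * L' + 1) + 1 := by
    unfold ctr
    exact card_image_le.trans (by rw [card_range])
  have h2 : 4 * L / (2 * L' + 1) * (2 * L' + 1) ≤ 4 * L := Nat.div_mul_le_self _ _
  calc (ctr L L').card * (2 * L' + 1) ≤ (4 * L / (2 * L' + 1) + 1) * (2 * L' + 1) :=
        Nat.mul_le_mul_right _ h1
    _ = 4 * L / (2 * L' + 1) * (2 * L' + 1) + (2 * L' + 1) := by ring
    _ ≤ 3 * (2 * L + 1) := by omega

lemma ctr_cover (L L' : ℕ) (x : ℤ) (hx : |x| ≤ 2 * (L : ℤ)) :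
    ∃ s ∈ ctr L L', |x - s| ≤ (L' : ℤ) := by
  rw [abs_le] at hx
  obtain ⟨m, hm⟩ : ∃ m : ℕ, x + 2 * L = m := Int.eq_ofNat_of_zero_le (by omega)
  have hm4 : m ≤ 4 * L := by omega
  have h1 : m / (2 * L' + 1) * (2 * L' + 1) ≤ m := Nat.div_mul_le_self _ _
  have h2 : m < (m / (2 * L' + 1) + 1) * (2 * L' + 1) := by
    rw [mul_comm]
    exact Nat.lt_mul_div_succ m (by omega)
  obtain ⟨k, hk⟩ : ∃ k, k = m / (2 * L' + 1) := ⟨_, rfl⟩
  rw [← hk] at h1 h2
  refine ⟨-2 * (L : ℤ) + L' + k * (2 * L' + 1), ?_, ?_⟩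
  · unfold ctr
    rw [mem_image]
    refine ⟨k, ?_, rfl⟩
    rw [mem_range, hk]
    have := Nat.div_le_div_right (c := 2 * L' + 1) hm4
    omega
  · obtain ⟨t, ht⟩ : ∃ t, t = k * (2 * L' + 1) := ⟨_, rfl⟩
    have h3 : (k : ℤ) * (2 * L' + 1) = t := by
      rw [ht]
      push_cast
      ring
    have h4 : (k + 1) * (2 * L' + 1) = t + (2 * L' + 1) := by
      rw [ht]
      ring
    rw [h3]
    rw [← ht] at h1
    rw [h4] at h2
    rw [abs_le]
    omega

theorem t_SHRB : S_SHRB := by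
  intro d L N hN
  classical
  have hex : ∃ j : ℕ, ∏ i, (2 * (L i / 2 ^ j) + 1) ≤ N := by
    obtain ⟨M, hM⟩ : ∃ M, ∀ i, L i ≤ M := ⟨∑ i, L i, fun i =>
      single_le_sum (f := L) (fun _ _ => Nat.zero_le _) (mem_univ i)⟩
    refine ⟨M, ?_⟩
    have h1 : ∀ i, 2 * (L i / 2 ^ M) + 1 = 1 := by
      intro i
      rw [Nat.div_eq_of_lt ((hM i).trans_lt Nat.lt_two_pow_self)]
    rw [prod_congr rfl fun i _ => h1 i, prod_const_one]
    exact hN
  obtain ⟨j, hj, hmin⟩ : ∃ j : ℕ, ∏ i, (2 * (L i / 2 ^ j) + 1) ≤ N ∧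
      ∀ k < j, ¬ ∏ i, (2 * (L i / 2 ^ k) + 1) ≤ N :=
    ⟨Nat.find hex, Nat.find_spec hex, fun k hk => Nat.find_min hex hk⟩
  refine ⟨fun i => L i / 2 ^ j, fun i => Nat.div_le_self _ _, hj,
    Fintype.piFinset fun i => ctr (L i) (L i / 2 ^ j), ?_, ?_⟩
  · intro x hx
    choose s hs hxs using fun i => ctr_cover (L i) (L i / 2 ^ j) (x i) (hx i)
    refine ⟨s, Fintype.mem_piFinset.2 hs, fun i => x i - s i, hxs, ?_⟩
    funext i
    simp
  · have hS : (Fintype.piFinset fun i => ctr (L i) (L i / 2 ^ j)).card *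
        ∏ i, (2 * (L i / 2 ^ j) + 1) ≤ 3 ^ d * ∏ i, (2 * L i + 1) := by
      rw [Fintype.card_piFinset, ← prod_mul_distrib]
      calc ∏ i, ((ctr (L i) (L i / 2 ^ j)).card * (2 * (L i / 2 ^ j) + 1))
          ≤ ∏ i, (3 * (2 * L i + 1)) :=
            prod_le_prod' fun i _ => ctr_card _ _ (Nat.div_le_self _ _)
        _ = 3 ^ d * ∏ i, (2 * L i + 1) := by
            rw [prod_mul_distrib, prod_const, card_univ, Fintype.card_fin]
    have hP : 0 < ∏ i, (2 * L i + 1) := prod_pos fun i _ => by omega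
    rcases Nat.eq_zero_or_pos j with h0 | h0
    · subst h0
      simp only [pow_zero, Nat.div_one] at hS ⊢
      have h1 : (Fintype.piFinset fun i => ctr (L i) (L i)).card ≤ 3 ^ d :=
        Nat.le_of_mul_le_mul_right hS hP
      calc _ ≤ 3 ^ d * N := Nat.mul_le_mul_right _ h1
        _ ≤ 9 ^ d * max (∏ i, (2 * L i + 1)) N :=
          Nat.mul_le_mul (Nat.pow_le_pow_left (by norm_num) _) (le_max_right _ _)
    · have h1 := hmin (j - 1) (by omega)
      have h2 : ∏ i, (2 * (L i / 2 ^ (j - 1)) + 1) ≤ 3 ^ d * ∏ i, (2 * (L i / 2 ^ j) + 1) := by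
        calc ∏ i, (2 * (L i / 2 ^ (j - 1)) + 1) ≤ ∏ i, (3 * (2 * (L i / 2 ^ j) + 1)) := by
              refine prod_le_prod' fun i _ => ?_
              have h3 : L i / 2 ^ j = L i / 2 ^ (j - 1) / 2 := by
                rw [Nat.div_div_eq_div_mul, ← pow_succ, Nat.sub_add_cancel h0]
              rw [h3]
              omega
          _ = 3 ^ d * ∏ i, (2 * (L i / 2 ^ j) + 1) := by
              rw [prod_mul_distrib, prod_const, card_univ, Fintype.card_fin]
      have h3 : N ≤ 3 ^ d * ∏ i, (2 * (L i / 2 ^ j) + 1) := by omega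
      calc (Fintype.piFinset fun i => ctr (L i) (L i / 2 ^ j)).card * N
          ≤ (Fintype.piFinset fun i => ctr (L i) (L i / 2 ^ j)).card *
            (3 ^ d * ∏ i, (2 * (L i / 2 ^ j) + 1)) := Nat.mul_le_mul_left _ h3
        _ = 3 ^ d * ((Fintype.piFinset fun i => ctr (L i) (L i / 2 ^ j)).card *
            ∏ i, (2 * (L i / 2 ^ j) + 1)) := by ring
        _ ≤ 3 ^ d * (3 ^ d * ∏ i, (2 * L i + 1)) := Nat.mul_le_mul_left _ hS
        _ = 9 ^ d * ∏ i, (2 * L i + 1) := by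
            rw [← mul_assoc, ← mul_pow]; norm_num
        _ ≤ 9 ^ d * max (∏ i, (2 * L i + 1)) N := Nat.mul_le_mul_left _ (le_max_left _ _)

end Pool.Agent.N291.SPC.SHRB
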